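import Pool.Agent.MP_c1891a_nt.G43.SpecA

/-
Weierstrass division in a Tate algebra.
-/

namespace Pool.Agent.MP_c1891a_nt.G43

open Finset Filter Module Topology MvPolynomial
open scoped NNReal

section

variable {K A : Type} [NontriviallyNormedField K] [NormedCommRing A] [NormedAlgebra K A]
  {d : ℕ} {Y : Fin d → A}

theorem divT_mono (hY : IsTate K Y) (β : Fin d →₀ ℕ) (c : K) :
    ‖aeval Y (monomial β c)‖ ≤ ‖c‖ := by
  classical
  have : ‖aeval Y (monomial β c)‖₊ ≤ ‖c‖₊ := by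
    rw [hY.1]
    refine Finset.sup_le fun γ _ => ?_
    rw [coeff_monomial]
    split_ifs <;> simp
  exact_mod_cast this

theorem divT_pow (hY : IsTate K Y) (n : Fin d) (j : ℕ) : ‖Y n ^ j‖ ≤ 1 := by
  have := divT_mono hY (Finsupp.single n j) 1
  rwa [← X_pow_eq_monomial, map_pow, aeval_X, norm_one] at this

theorem divT_adj (s : Set (Fin d)) :
    Algebra.adjoin K (Y '' s) = (supported K s).map (aeval Y) := by
  rw [supported, AlgHom.map_adjoin, Set.image_image]
  simp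

theorem divT_le (n : ℕ) : TS K Y n ≤ TS K Y (n + 1) :=
  Subalgebra.topologicalClosure_minimal
    ((Algebra.adjoin_mono (Set.image_mono fun _ hi => Nat.lt_succ_of_lt hi)).trans
      (Subalgebra.le_topologicalClosure _)) (Subalgebra.isClosed_topologicalClosure _)

theorem divT_mem (n : Fin d) : Y n ∈ TS K Y (n + 1) :=
  Subalgebra.le_topologicalClosure _ (Algebra.subset_adjoin ⟨n, Nat.lt_succ_self _, rfl⟩)

/-- exact division by `W` with control of the norms. -/
def DivTD (K : Type) [NontriviallyNormedField K] [NormedAlgebra K A] (Y : Fin d → A) (n : Fin d)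
    (e : ℕ) (W : A) (R : ℝ) (a : A) : Prop :=
  ∃ q ∈ TS K Y (n + 1), ‖q‖ ≤ R ∧ ∃ r : Fin e → A, (∀ k, r k ∈ TS K Y n ∧ ‖r k‖ ≤ R) ∧
    a = q * W + ∑ k, r k * Y n ^ (k : ℕ)

variable [IsUltrametricDist A] {n : Fin d} {e : ℕ} {W : A} {R : ℝ}

theorem divT_add {a b : A} (ha : DivTD K Y n e W R a) (hb : DivTD K Y n e W R b) :
    DivTD K Y n e W R (a + b) := by
  obtain ⟨q, hq, hq', r, hr, rfl⟩ := ha
  obtain ⟨p, hp, hp', s, hs, rfl⟩ := hb
  refine ⟨q + p, add_mem hq hp, (IsUltrametricDist.norm_add_le_max _ _).trans (max_le hq' hp'),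
    r + s, fun k => ⟨add_mem (hr k).1 (hs k).1,
      (IsUltrametricDist.norm_add_le_max _ _).trans (max_le (hr k).2 (hs k).2)⟩, ?_⟩
  simp only [Pi.add_apply, add_mul, sum_add_distrib]
  ring

theorem divT_sum {ι : Type} (hR : 0 ≤ R) (s : Finset ι) {a : ι → A}
    (ha : ∀ i ∈ s, DivTD K Y n e W R (a i)) : DivTD K Y n e W R (∑ i ∈ s, a i) :=
  Finset.sum_induction a _ (fun _ _ => divT_add)
    ⟨0, zero_mem _, by simpa, 0, fun k => ⟨zero_mem _, by simpa⟩, by simp⟩ ha

omit [IsUltrametricDist A] in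
theorem divT_mul {a b : A} (hb : b ∈ TS K Y n) (hR : ‖b‖ ≤ R) (ha : DivTD K Y n e W 1 a) :
    DivTD K Y n e W R (b * a) := by
  obtain ⟨q, hq, hq', r, hr, rfl⟩ := ha
  have key : ∀ x : A, ‖x‖ ≤ 1 → ‖b * x‖ ≤ R := fun x hx =>
    (norm_mul_le _ _).trans ((mul_le_of_le_one_right (norm_nonneg _) hx).trans hR)
  refine ⟨b * q, mul_mem (divT_le _ hb) hq, key _ hq', fun k => b * r k,
    fun k => ⟨mul_mem hb (hr k).1, key _ (hr k).2⟩, ?_⟩
  simp only [mul_add, mul_sum, mul_assoc]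

theorem divT_pw (hY : IsTate K Y) {w : Polynomial A} (hw : w.Monic)
    (hc : ∀ k, w.coeff k ∈ TS K Y n ∧ ‖w.coeff k‖ ≤ 1) (m : ℕ) :
    DivTD K Y n w.natDegree (w.eval (Y n)) 1 (Y n ^ m) := by
  classical
  induction m using Nat.strong_induction_on with
  | _ m ih =>
    rcases lt_or_ge m w.natDegree with h | h
    · refine ⟨0, zero_mem _, by simp, Pi.single ⟨m, h⟩ 1, fun k => ?_, ?_⟩
      · rw [Pi.single_apply]
        split_ifs
        · exact ⟨one_mem _, by simpa using divT_pow hY n 0⟩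
        · exact ⟨zero_mem _, by simp⟩
      · simp [Pi.single_apply]
    · obtain ⟨j, rfl⟩ := Nat.exists_eq_add_of_le h
      have e1 : Y n ^ (w.natDegree + j) = Y n ^ j * w.eval (Y n) +
          ∑ k ∈ range w.natDegree, -w.coeff k * Y n ^ (k + j) := by
        rw [Polynomial.eval_eq_sum_range, sum_range_succ, hw.coeff_natDegree, mul_add, mul_sum,
          add_right_comm, ← sum_add_distrib, sum_eq_zero fun k _ => by ring]
        ring
      rw [e1]
      refine divT_add ⟨Y n ^ j, pow_mem (divT_mem n) j, divT_pow hY n j, 0,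
        fun k => ⟨zero_mem _, by simp⟩, by simp⟩ (divT_sum zero_le_one _ fun k hk => ?_)
      exact divT_mul (neg_mem (hc k).1) (by simpa using (hc k).2)
        (ih _ (Nat.add_lt_add_right (mem_range.1 hk) j))

theorem divT_poly (hY : IsTate K Y) {w : Polynomial A} (hw : w.Monic)
    (hc : ∀ k, w.coeff k ∈ TS K Y n ∧ ‖w.coeff k‖ ≤ 1) {a : A}
    (ha : a ∈ Algebra.adjoin K (Y '' {i | (i : ℕ) < n + 1})) :
    DivTD K Y n w.natDegree (w.eval (Y n)) ‖a‖ a := by
  classical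
  rw [divT_adj] at ha
  obtain ⟨p, hp, rfl⟩ := ha
  have hp' := mem_supported.1 hp
  have e1 : aeval Y p = ∑ α ∈ p.support, aeval Y (monomial (α.erase n) (p.coeff α)) * Y n ^ α n := by
    conv_lhs => rw [p.as_sum, map_sum]
    refine sum_congr rfl fun α _ => ?_
    conv_lhs => rw [← Finsupp.erase_add_single n α]
    rw [monomial_add_single, map_mul, map_pow, aeval_X, Finsupp.erase_add_single]
  change DivTD K Y n _ _ ‖aeval Y p‖ (aeval Y p)
  conv_rhs => rw [e1]
  refine divT_sum (norm_nonneg _) _ fun α hα => divT_mul ?_ ?_ (divT_pw hY hw hc _)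
  · refine Subalgebra.le_topologicalClosure _ ?_
    rw [divT_adj]
    refine ⟨_, mem_supported.2 fun i hi => ?_, rfl⟩
    rw [vars_monomial (mem_support_iff.1 hα), Finsupp.support_erase, mem_coe, mem_erase] at hi
    have h1 : (i : ℕ) < n + 1 := hp' ((mem_vars_iff_mem_support i).2 ⟨α, hα, hi.2⟩)
    have h2 : (i : ℕ) ≠ n := fun h => hi.1 (Fin.ext h)
    change (i : ℕ) < n
    omega
  · refine (divT_mono hY _ _).trans ?_
    have : ‖p.coeff α‖₊ ≤ ‖aeval Y p‖₊ := by
      rw [hY.1]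
      exact Finset.le_sup (f := fun α => ‖p.coeff α‖₊) hα
    exact_mod_cast this

theorem divT_step (hY : IsTate K Y) {w : Polynomial A} (hw : w.Monic)
    (hc : ∀ k, w.coeff k ∈ TS K Y n ∧ ‖w.coeff k‖ ≤ 1) {g : A} {ε : ℝ} (h0 : 0 < ε) (h1 : ε ≤ 1)
    (hg : ‖g - w.eval (Y n)‖ ≤ ε) (h : A) (hh : h ∈ TS K Y (n + 1)) :
    ∃ (q : A) (r : Fin w.natDegree → A), q ∈ TS K Y (n + 1) ∧ ‖q‖ ≤ ‖h‖ ∧
      (∀ k, r k ∈ TS K Y n ∧ ‖r k‖ ≤ ‖h‖) ∧
      ‖h - (q * g + ∑ k, r k * Y n ^ (k : ℕ))‖ ≤ ‖h‖ * ε := by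
  rcases eq_or_ne h 0 with rfl | hne
  · exact ⟨0, 0, zero_mem _, le_rfl, fun k => ⟨zero_mem _, le_rfl⟩, by simp⟩
  have hp := norm_pos_iff.2 hne
  obtain ⟨a, ha, hd⟩ := Metric.mem_closure_iff.1 hh (‖h‖ * ε) (mul_pos hp h0)
  rw [dist_eq_norm] at hd
  have hah : ‖a‖ ≤ ‖h‖ := by
    have e1 : a = h + -(h - a) := by ring
    rw [e1]
    refine (IsUltrametricDist.norm_add_le_max _ _).trans (max_le le_rfl ?_)
    rw [norm_neg]
    exact hd.le.trans (mul_le_of_le_one_right hp.le h1)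
  obtain ⟨q, hq, hq', r, hr, e1⟩ := divT_poly hY hw hc ha
  refine ⟨q, r, hq, hq'.trans hah, fun k => ⟨(hr k).1, (hr k).2.trans hah⟩, ?_⟩
  have e2 : h - (q * g + ∑ k, r k * Y n ^ (k : ℕ)) = (h - a) + -q * (g - w.eval (Y n)) := by
    linear_combination e1
  rw [e2]
  refine (IsUltrametricDist.norm_add_le_max _ _).trans (max_le hd.le ((norm_mul_le _ _).trans ?_))
  rw [norm_neg]
  exact mul_le_mul (hq'.trans hah) hg (norm_nonneg _) hp.le

end

theorem sDivT : SDivT := by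
  intro K A _ _ _ _ _ _ d Y hY n g w hg hw hc hlt h hh
  set ε := max (1 / 2) ‖g - w.eval (Y n)‖ with hε
  have h0 : 0 < ε := lt_max_of_lt_left (by norm_num)
  have h1 : ε < 1 := max_lt (by norm_num) hlt
  choose! Q Rr hQ hQ' hR hs using divT_step hY hw hc h0 h1.le (le_max_right _ _)
  let F : A → A := fun a => Q a * g + ∑ k, Rr a k * Y n ^ (k : ℕ)
  let u : ℕ → A := fun m => (fun a => a - F a)^[m] h
  have us : ∀ m, u (m + 1) = u m - F (u m) := fun m => Function.iterate_succ_apply' _ m h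
  have hu : ∀ m, u m ∈ TS K Y (n + 1) ∧ ‖u m‖ ≤ ‖h‖ * ε ^ m := fun m => by
    induction m with
    | zero => exact ⟨hh, by simp [u]⟩
    | succ m ih =>
      rw [us]
      refine ⟨sub_mem ih.1 (add_mem (mul_mem (hQ _ ih.1) hg) (sum_mem fun k _ =>
        mul_mem (divT_le _ (hR _ ih.1 k).1) (pow_mem (divT_mem n) _))), (hs _ ih.1).trans ?_⟩
      rw [pow_succ, ← mul_assoc]
      exact mul_le_mul_of_nonneg_right ih.2 h0.le
  have hgeo := (summable_geometric_of_lt_one h0.le h1).mul_left ‖h‖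
  have sQ : Summable fun m => Q (u m) :=
    .of_norm_bounded hgeo fun m => (hQ' _ (hu m).1).trans (hu m).2
  have sR : ∀ k, Summable fun m => Rr (u m) k := fun k =>
    .of_norm_bounded hgeo fun m => (hR _ (hu m).1 k).2.trans (hu m).2
  have cl : ∀ (j : ℕ) (x : ℕ → A), Summable x → (∀ m, x m ∈ TS K Y j) → ∑' m, x m ∈ TS K Y j :=
    fun j x hx hm => (Subalgebra.isClosed_topologicalClosure _).mem_of_tendsto
      hx.hasSum.tendsto_sum_nat (.of_forall fun N => sum_mem fun m _ => hm m)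
  refine ⟨∑' m, Q (u m), cl _ _ sQ fun m => hQ _ (hu m).1, fun k => ∑' m, Rr (u m) k,
    fun k => ⟨cl _ _ (sR k) fun m => (hR _ (hu m).1 k).1, ?_⟩, ?_⟩
  · refine IsUltrametricDist.norm_tsum_le_of_forall_le fun m =>
      ((hR _ (hu m).1 k).2.trans (hu m).2).trans ?_
    exact mul_le_of_le_one_right (norm_nonneg _) (pow_le_one₀ h0.le h1.le)
  · have t1 : HasSum (fun m => F (u m)) _ := (sQ.hasSum.mul_right g).add
      (hasSum_sum (s := univ) fun k _ => (sR k).hasSum.mul_right (Y n ^ (k : ℕ)))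
    have t0 : Tendsto u atTop (𝓝 0) := squeeze_zero_norm (fun m => (hu m).2)
      hgeo.tendsto_atTop_zero
    have t2 : Tendsto (fun N => ∑ m ∈ range N, F (u m)) atTop (𝓝 (h - 0)) := by
      refine (tendsto_const_nhds.sub t0).congr fun N => ?_
      induction N with
      | zero => simp [u]
      | succ N ih => rw [sum_range_succ, ← ih, us]; ring
    rw [sub_zero] at t2
    exact tendsto_nhds_unique t2 t1.tendsto_sum_nat

end Pool.Agent.MP_c1891a_nt.G43
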